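import Mathlib

/-! Mapping class groups, stabilisers of homotopy classes, and a sphere with six holes. -/

namespace Pool.Agent.Lib.MP_988b7a_gt

open unitInterval

variable {X Y : Type} [TopologicalSpace X] [TopologicalSpace Y]

/-- Homeomorphisms fixing `B` pointwise. -/
def homeoFix (B : Set X) : Subgroup (X ≃ₜ X) where
  carrier := {e | ∀ x ∈ B, e x = x}
  one_mem' := fun _ _ => rfl
  mul_mem' := fun {a b} ha hb x hx => by
    show a (b x) = x
    rw [hb x hx, ha x hx]
  inv_mem' := fun {a} ha x hx => a.symm_apply_eq.2 (ha x hx).symm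

/-- `ρ` is isotopic to the identity through homeomorphisms fixing `B` pointwise. -/
def IsotopicToId (B : Set X) (ρ : homeoFix B) : Prop :=
  ∃ H : C(I × X, X), (∀ x, H (0, x) = x) ∧ (∀ x, H (1, x) = ρ.1 x) ∧
    ∀ t, ∃ e : homeoFix B, ∀ x, H (t, x) = e.1 x

/-- The mapping class group of `X` relative to `B`. -/
def MCG (B : Set X) : Type :=
  homeoFix B ⧸ Subgroup.normalClosure {ρ | IsotopicToId B ρ}

/-- The quotient group structure. -/
instance groupMCG (B : Set X) : Group (MCG B) := QuotientGroup.Quotient.group _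

/-- `f ∘ ρ⁻¹` is homotopic to `f` relative to `V`. -/
def Stabilises (V : Set X) (f : C(X, Y)) (ρ : X ≃ₜ X) : Prop :=
  (f.comp (ρ.symm : C(X, X))).HomotopicRel f V

/-- Homeomorphisms `ρ` fixing `B` pointwise such that `f ∘ ρ⁻¹` is homotopic to `f` relative to
the set `V` of marked points. -/
def stabHomeo {B V : Set X} (hV : V ⊆ B) (f : C(X, Y)) : Subgroup (homeoFix B) where
  carrier := {ρ | Stabilises V f ρ.1}
  one_mem' := ContinuousMap.HomotopicRel.refl f
  mul_mem' := fun {a b} ha hb => by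
    obtain ⟨F⟩ := hb
    refine ContinuousMap.HomotopicRel.trans (g := f.comp (a.1.symm : C(X, X)))
      ⟨⟨F.toHomotopy.compContinuousMap (a.1.symm : C(X, X)), fun t x hx => ?_⟩⟩ ha
    have h : a.1.symm x = x := a.1.symm_apply_eq.2 (a.2 x (hV hx)).symm
    show F (t, a.1.symm x) = f (b.1.symm (a.1.symm x))
    rw [h]; exact F.eq_fst t hx
  inv_mem' := fun {a} ha => by
    obtain ⟨F⟩ := ha
    refine ContinuousMap.HomotopicRel.symm ⟨⟨(F.toHomotopy.compContinuousMap
      (a.1 : C(X, X))).cast (by ext x; simp) rfl, fun t x hx => ?_⟩⟩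
    show F (t, a.1 x) = f x
    rw [a.2 x (hV hx)]; exact F.eq_snd t hx

/-- The stabiliser in the mapping class group of the homotopy class of `f` relative to `V`. -/
def MCGf {B V : Set X} (hV : V ⊆ B) (f : C(X, Y)) : Subgroup (MCG B) :=
  (stabHomeo hV f).map (QuotientGroup.mk' _)

/-- The first homology group of `H` with trivial integer coefficients is finitely generated. -/
def H1Finite {G : Type} [Group G] (H : Subgroup G) : Prop :=
  Module.Finite ℤ (groupHomology (Rep.trivial ℤ H ℤ) 1)

/-- The bouquet of two circles. -/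
abbrev Bouquet : Type := {x : ℂ × ℂ // (‖x.1‖ = 1 ∧ x.2 = 1) ∨ (x.1 = 1 ∧ ‖x.2‖ = 1)}

/-- Centres of the six boundary circles. -/
def ctr : Fin 6 → ℝ := ![0, 0, 6, 8, 12, 14]

/-- Radii of the six boundary circles. -/
noncomputable def rad : Fin 6 → ℝ := ![20, 1, 1 / 2, 1 / 2, 1 / 2, 1 / 2]

/-- The closed disc of radius 20 with five disjoint open discs removed. -/
def Surf : Set ℂ := {z | ‖z‖ ≤ 20 ∧ ∀ i, i ≠ 0 → rad i ≤ ‖z - ctr i‖}

/-- The boundary circle number `i`. -/
def circ (i : Fin 6) : Set Surf := {z | ‖z.1 - ctr i‖ = rad i}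

/-- The boundary of the surface. -/
def bd : Set Surf := ⋃ i, circ i

end Pool.Agent.Lib.MP_988b7a_gt
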