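import Mathlib
import Pool.Agent.Lib.MP_988b7a_gt.Defs

-- part Pool.Agent.Lib.MP_988b7a_gt.Log
section

/-! Continuous logarithms and winding. -/

namespace Pool.Agent.Lib.MP_988b7a_gt

open Complex unitInterval

theorem exists_log {E : Type} [NormedAddCommGroup E] [NormedSpace ℝ E] {h : E → ℂ}
    (hc : Continuous h) (h0 : ∀ x, h x ≠ 0) : ∃ L : E → ℂ, Continuous L ∧ ∀ x, exp (L x) = h x := by
  obtain ⟨F, ⟨_, hF⟩, _⟩ := isCoveringMap_exp.existsUnique_continuousMap_lifts
    (⟨fun x => ⟨h x, h0 x⟩, hc.subtype_mk _⟩ : C(E, {z : ℂ // z ≠ 0})) 0 (log (h 0))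
    (Subtype.ext (exp_log (h0 0)))
  exact ⟨F, F.continuous, fun x => congrArg Subtype.val (congrFun hF x)⟩

theorem exists_log_homotopy {A : Type} [TopologicalSpace A] {H : I × A → ℂ} (hc : Continuous H)
    (h0 : ∀ x, H x ≠ 0) (h1 : ∀ a, H (0, a) = 1) :
    ∃ L : I × A → ℂ, Continuous L ∧ (∀ x, exp (L x) = H x) ∧ ∀ a, L (0, a) = 0 := by
  let H' : C(I × A, {z : ℂ // z ≠ 0}) := ⟨fun x => ⟨H x, h0 x⟩, hc.subtype_mk _⟩
  have h2 : ∀ a, H' (0, a) = ⟨exp ((0 : C(A, ℂ)) a), exp_ne_zero _⟩ :=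
    fun a => Subtype.ext (by simp [H', h1])
  exact ⟨isCoveringMap_exp.liftHomotopy H' 0 h2, ContinuousMap.continuous _,
    fun x => congrArg Subtype.val (congrFun (isCoveringMap_exp.liftHomotopy_lifts H' 0 h2) x),
    fun a => isCoveringMap_exp.liftHomotopy_zero H' 0 h2 a⟩

theorem sub_const {A : Type} [TopologicalSpace A] {s : Set A} (hs : IsPreconnected s)
    {f g : A → ℂ} (hf : ContinuousOn f s) (hg : ContinuousOn g s)
    (h : ∀ a ∈ s, exp (f a) = exp (g a)) {a b : A} (ha : a ∈ s) (hb : b ∈ s) :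
    f a - g a = f b - g b :=
  isCoveringMap_exp.constOn_of_comp hs (hf.sub hg)
    (fun x hx y hy => Subtype.ext (by simp [exp_sub, h x hx, h y hy])) ha hb

theorem sub_const' {A : Type} [TopologicalSpace A] [PreconnectedSpace A] {f g : A → ℂ}
    (hf : Continuous f) (hg : Continuous g) (h : ∀ a, exp (f a) = exp (g a)) (a b : A) :
    f a - g a = f b - g b :=
  sub_const isPreconnected_univ hf.continuousOn hg.continuousOn (fun a _ => h a) trivial trivial

/-- `c` is the variation of a continuous logarithm of `A` between `0` and `1`. -/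
def Wind (A : ℝ → ℂ) (c : ℂ) : Prop :=
  ∃ α : ℝ → ℂ, Continuous α ∧ (∀ t, exp (α t) = A t) ∧ α 1 - α 0 = c

theorem Wind.unique {A : ℝ → ℂ} {c c' : ℂ} (h : Wind A c) (h' : Wind A c') : c = c' := by
  obtain ⟨α, h1, h2, rfl⟩ := h
  obtain ⟨β, h3, h4, rfl⟩ := h'
  have := sub_const' h1 h3 (fun t => (h2 t).trans (h4 t).symm) 1 0
  linear_combination this

/-- The boundary of a square. -/
theorem wind_square {G : ℝ × ℝ → ℂ} (hc : Continuous G) (h0 : ∀ x, G x ≠ 0) {a b c d : ℂ}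
    (ha : Wind (fun t => G (t, 0)) a) (hb : Wind (fun t => G (t, 1)) b)
    (hc' : Wind (fun t => G (0, t)) c) (hd : Wind (fun t => G (1, t)) d) : a + d = c + b := by
  obtain ⟨L, h1, h2⟩ := exists_log hc h0
  rw [ha.unique ⟨fun t => L (t, 0), by fun_prop, fun _ => h2 _, rfl⟩,
    hb.unique ⟨fun t => L (t, 1), by fun_prop, fun _ => h2 _, rfl⟩,
    hc'.unique ⟨fun t => L (0, t), by fun_prop, fun _ => h2 _, rfl⟩,
    hd.unique ⟨fun t => L (1, t), by fun_prop, fun _ => h2 _, rfl⟩]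
  ring

theorem exists_wind {A : ℝ → ℂ} (hc : Continuous A) (h0 : ∀ x, A x ≠ 0) : ∃ c, Wind A c := by
  obtain ⟨L, h1, h2⟩ := exists_log hc h0
  exact ⟨_, L, h1, h2, rfl⟩

theorem Wind.mul {A B : ℝ → ℂ} {a b : ℂ} (ha : Wind A a) (hb : Wind B b) :
    Wind (fun t => A t * B t) (a + b) := by
  obtain ⟨α, h1, h2, rfl⟩ := ha
  obtain ⟨β, h3, h4, rfl⟩ := hb
  exact ⟨fun t => α t + β t, h1.add h3, fun t => by rw [exp_add, h2, h4], by ring⟩

theorem wind_slit {A : ℝ → ℂ} (hc : Continuous A) (h0 : ∀ t, A t ∈ slitPlane) (h1 : A 1 = A 0) :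
    Wind A 0 :=
  ⟨fun t => log (A t), hc.clog h0, fun t => exp_log (slitPlane_ne_zero (h0 t)), by simp [h1]⟩

theorem wind_const {a : ℂ} (h : a ≠ 0) : Wind (fun _ => a) 0 :=
  ⟨fun _ => log a, continuous_const, fun _ => exp_log h, by simp⟩

/-- Pasting along the boundary of a closed set. -/
theorem continuous_paste {T : Type} [TopologicalSpace T] {S U : Set ℂ} (hS : IsClosed S)
    (hU : IsOpen U) (hUS : U ⊆ S) [DecidablePred (· ∈ S)] {H : T × S → ℂ} (hH : Continuous H)
    {k : ℂ → ℂ} (hk : Continuous k) (h : ∀ t (z : S), z.1 ∉ U → H (t, z) = k z) :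
    Continuous (fun x : T × ℂ => if hz : x.2 ∈ S then H (x.1, ⟨x.2, hz⟩) else k x.2) := by
  rw [← continuousOn_univ]
  have e : (Set.univ : Set (T × ℂ)) = Prod.snd ⁻¹' S ∪ Prod.snd ⁻¹' Uᶜ := by
    ext x
    by_cases hx : x.2 ∈ U
    · simp [hUS hx]
    · simp [hx]
  rw [e]
  refine ContinuousOn.union_of_isClosed ?_ ?_ (hS.preimage continuous_snd)
    (hU.isClosed_compl.preimage continuous_snd)
  · rw [continuousOn_iff_continuous_domRestrict]
    have : Continuous (fun x : ↥(Prod.snd ⁻¹' S : Set (T × ℂ)) => H (x.1.1, ⟨x.1.2, x.2⟩)) := by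
      fun_prop
    refine this.congr (fun x => ?_)
    have hx : x.1.2 ∈ S := x.2
    show _ = dite _ _ _
    rw [dif_pos hx]
  · refine (hk.comp continuous_snd).continuousOn.congr (fun x hx => ?_)
    by_cases hz : x.2 ∈ S
    · simp only [dif_pos hz]; exact h _ _ hx
    · simp only [dif_neg hz]; rfl

end Pool.Agent.Lib.MP_988b7a_gt
end

-- part Pool.Agent.Lib.MP_988b7a_gt.Inv
section

/-! Linking invariants in the infinite cyclic cover. -/

namespace Pool.Agent.Lib.MP_988b7a_gt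

open Complex Real

/-- The interior of the surface. -/
def Int' : Set ℂ := {z | ‖z‖ < 20 ∧ ∀ i, i ≠ 0 → rad i < ‖z - ctr i‖}

theorem isClosed_Surf : IsClosed Surf := by
  simp only [Surf, Set.setOf_and, Set.setOf_forall]
  exact (isClosed_le (by fun_prop) (by fun_prop)).inter (isClosed_iInter fun i =>
    isClosed_iInter fun _ => isClosed_le (by fun_prop) (by fun_prop))

theorem isOpen_Int : IsOpen Int' := by
  simp only [Int', Set.setOf_and, Set.setOf_forall]
  exact (isOpen_lt (by fun_prop) (by fun_prop)).inter (isOpen_iInter_of_finite fun i =>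
    isOpen_iInter_of_finite fun _ => isOpen_lt (by fun_prop) (by fun_prop))

theorem Int_sub : Int' ⊆ Surf := fun _ h => ⟨h.1.le, fun i hi => (h.2 i hi).le⟩

theorem mem_bd {z : Surf} : z ∈ bd ↔ z.1 ∉ Int' := by
  simp only [bd, Set.mem_iUnion, circ, Set.mem_setOf_eq]
  constructor
  · rintro ⟨i, hi⟩ h
    by_cases e : i = 0
    · subst e
      have := h.1
      simp [ctr, rad] at hi
      linarith
    · exact (h.2 i e).ne' hi
  · intro h
    by_contra hc
    push Not at hc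
    refine h ⟨lt_of_le_of_ne z.2.1 ?_, fun i hi => lt_of_le_of_ne (z.2.2 i hi) (hc i).symm⟩
    simpa [ctr, rad] using hc 0

theorem sphere_sub (i : Fin 6) {z : ℂ} (h : ‖z - ctr i‖ = rad i) : z ∈ Surf := by
  have key : ∀ j, |ctr i - ctr j| - rad i ≤ ‖z - ctr j‖ ∧ rad i - |ctr i - ctr j| ≤ ‖z - ctr j‖ ∧
      ‖z - ctr j‖ ≤ rad i + |ctr i - ctr j| := by
    intro j
    have e : ‖((ctr i : ℂ) - ctr j)‖ = |ctr i - ctr j| := by
      rw [← ofReal_sub, norm_real, Real.norm_eq_abs]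
    have h1 := norm_add_le (z - ctr i) ((ctr i : ℂ) - ctr j)
    have h2 := norm_sub_le (z - ctr j) (z - ctr i)
    have h3 := norm_sub_le (z - ctr j) ((ctr i : ℂ) - ctr j)
    rw [sub_add_sub_cancel] at h1
    rw [sub_sub_sub_cancel_left] at h2
    rw [sub_sub_sub_cancel_right] at h3
    refine ⟨?_, ?_, ?_⟩ <;> linarith
  refine ⟨?_, fun j hj => ?_⟩
  · have := (key 0).2.2
    fin_cases i <;> simp [ctr, rad] at this ⊢ <;> linarith
  · obtain ⟨h1, h2, _⟩ := key j
    by_cases e : i = j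
    · subst e; exact h.ge
    fin_cases i <;> fin_cases j <;> simp [ctr, rad] at e hj h1 h2 ⊢ <;>
      norm_num [abs_of_pos, abs_of_neg] at h1 h2 ⊢ <;> linarith

theorem ne_zero_of_mem {z : ℂ} (h : z ∈ Surf) : z ≠ 0 := by
  rintro rfl
  have := h.2 1 (by decide)
  simp [ctr, rad] at this
  linarith

open Classical in
/-- Extension of a self-map of the surface by the identity. -/
noncomputable def ext (ρ : Surf → Surf) (z : ℂ) : ℂ := if h : z ∈ Surf then ρ ⟨z, h⟩ else z

theorem ext_mem (ρ : Surf → Surf) (z : Surf) : ext ρ z = ρ z := dif_pos z.2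

theorem ext_fix (ρ : homeoFix bd) {z : ℂ} (h : z ∉ Int') : ext ρ.1 z = z := by
  unfold ext
  split_ifs with hz
  · rw [ρ.2 _ (mem_bd.2 h)]
  · rfl

theorem ext_mul (ρ η : homeoFix bd) (z : ℂ) : ext (ρ * η).1 z = ext ρ.1 (ext η.1 z) := by
  by_cases hz : z ∈ Surf
  · lift z to Surf using hz
    rw [ext_mem, ext_mem, ext_mem]; rfl
  · have h := fun h => hz (Int_sub h)
    rw [ext_fix _ h, ext_fix η h, ext_fix ρ h]

theorem ext_int (ρ : homeoFix bd) {z : ℂ} (h : z ∈ Int') : ext ρ.1 z ∈ Int' := by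
  by_contra hn
  have h1 := ext_mul ρ⁻¹ ρ z
  rw [ext_fix ρ⁻¹ hn, inv_mul_cancel] at h1
  lift z to Surf using Int_sub h
  rw [ext_mem] at h1
  exact hn (h1 ▸ h)

theorem ext_ne (ρ : Surf → Surf) {z : ℂ} (h : z ≠ 0) : ext ρ z ≠ 0 := by
  unfold ext
  split_ifs with hz
  · exact ne_zero_of_mem (ρ _).2
  · exact h

/-- `ψ` is the lift of `ρ` to the infinite cyclic cover that fixes all the boundary curves. -/
structure GLift (ρ : homeoFix bd) (ψ : ℂ → ℂ) : Prop where
  cont : Continuous ψ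
  lift : ∀ w, cexp (ψ w) = ext ρ.1 (cexp w)
  fix : ∀ w, cexp w ∉ Int' → ψ w = w

theorem one_notMem : cexp 0 ∉ Int' := fun h => by simpa [ctr, rad] using h.2 1 (by decide)

theorem GLift.unique {ρ : homeoFix bd} {ψ ψ' : ℂ → ℂ} (h : GLift ρ ψ) (h' : GLift ρ ψ') : ψ = ψ' := by
  funext w
  have := sub_const' h.cont h'.cont (fun w => (h.lift w).trans (h'.lift w).symm) w 0
  rw [h.fix 0 one_notMem, h'.fix 0 one_notMem] at this
  linear_combination this

theorem GLift.mul {ρ η : homeoFix bd} {ψ χ : ℂ → ℂ} (h : GLift ρ ψ) (h' : GLift η χ) :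
    GLift (ρ * η) (ψ ∘ χ) :=
  ⟨h.cont.comp h'.cont, fun w => by rw [Function.comp, h.lift, h'.lift, ext_mul],
    fun w hw => by rw [Function.comp, h'.fix w hw, h.fix w hw]⟩

noncomputable def pt : ℂ := (Real.log 8 : ℝ)
noncomputable def qq (n : ℤ) : ℂ := (Real.log 12 : ℝ) + n * (2 * π * Complex.I)
noncomputable def gam (s : ℝ) : ℂ := (Real.log 8 * Real.sin (π / 2 * s) : ℝ)

theorem exp_pt : cexp pt = 8 := by
  rw [pt, ← ofReal_exp, Real.exp_log (by norm_num)]; norm_num

theorem exp_qq (n : ℤ) : cexp (qq n) = 12 := by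
  rw [qq, Complex.exp_add, exp_int_mul_two_pi_mul_I, ← ofReal_exp, Real.exp_log (by norm_num)]
  norm_num

theorem gam_zero : gam 0 = 0 := by simp [gam]
theorem gam_one : gam 1 = pt := by simp [gam, pt]
theorem cont_gam : Continuous gam := by unfold gam; fun_prop

theorem gam_ne (s : ℝ) (n : ℤ) : gam s ≠ qq n := by
  intro h
  have h1 := congrArg re h
  simp only [gam, qq, ofReal_re, add_re] at h1
  have h2 : Real.log 8 < Real.log 12 := Real.log_lt_log (by norm_num) (by norm_num)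
  have h3 : 0 < Real.log 8 := Real.log_pos (by norm_num)
  have h4 := Real.sin_le_one (π / 2 * s)
  simp at h1
  nlinarith

theorem pt_notMem : cexp pt ∉ Int' := fun h => by
  have := h.2 3 (by decide)
  rw [exp_pt] at this
  simp [ctr, rad] at this
  linarith

theorem qq_notMem (n : ℤ) : cexp (qq n) ∉ Surf := fun h => by
  have := h.2 4 (by decide)
  rw [exp_qq] at this
  simp [ctr, rad] at this
  linarith

noncomputable def hq (ψ : ℂ → ℂ) (q w : ℂ) : ℂ := 1 + (ψ w - w) / (w - q)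

theorem hq_eq {ψ : ℂ → ℂ} {q w : ℂ} (h : w ≠ q) : hq ψ q w = (ψ w - q) / (w - q) := by
  have := sub_ne_zero.2 h
  unfold hq
  field_simp
  ring

theorem GLift.ne {ρ : homeoFix bd} {ψ : ℂ → ℂ} (h : GLift ρ ψ) {n : ℤ} {w : ℂ} (hw : w ≠ qq n) :
    ψ w ≠ qq n := by
  intro e
  by_cases h1 : cexp w ∈ Int'
  · have := ext_int ρ h1
    rw [← h.lift, e] at this
    exact qq_notMem n (Int_sub this)
  · exact hw (h.fix w h1 ▸ e)

theorem GLift.hq_cont {ρ : homeoFix bd} {ψ : ℂ → ℂ} (h : GLift ρ ψ) (n : ℤ) :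
    Continuous (hq ψ (qq n)) := by
  rw [continuous_iff_continuousAt]
  intro w
  by_cases e : w = qq n
  · subst e
    refine (continuousAt_const (y := (1 : ℂ))).congr ?_
    have : ∀ᶠ w in nhds (qq n), cexp w ∉ Surf :=
      continuous_exp.continuousAt.eventually_mem (isClosed_Surf.isOpen_compl.mem_nhds (qq_notMem n))
    filter_upwards [this] with w hw
    simp [hq, h.fix w (fun h => hw (Int_sub h))]
  · have := h.cont
    exact continuousAt_const.add (ContinuousAt.div (by fun_prop) (by fun_prop) (sub_ne_zero.2 e))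

theorem GLift.hq_ne {ρ : homeoFix bd} {ψ : ℂ → ℂ} (h : GLift ρ ψ) (n : ℤ) (w : ℂ) :
    hq ψ (qq n) w ≠ 0 := by
  by_cases e : w = qq n
  · simp [hq, e]
  · rw [hq_eq e]
    exact div_ne_zero (sub_ne_zero.2 (h.ne e)) (sub_ne_zero.2 e)

/-- The value of the invariant number `n`. -/
def Val (ρ : homeoFix bd) (n : ℤ) (c : ℂ) : Prop :=
  ∃ ψ, GLift ρ ψ ∧ Wind (fun s => hq ψ (qq n) (gam s)) c

theorem Val.unique {ρ : homeoFix bd} {n : ℤ} {c c' : ℂ} (h : Val ρ n c) (h' : Val ρ n c') :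
    c = c' := by
  obtain ⟨ψ, h1, h2⟩ := h
  obtain ⟨ψ', h3, h4⟩ := h'
  rw [h1.unique h3] at h2
  exact h2.unique h4

theorem GLift.val {ρ : homeoFix bd} {ψ : ℂ → ℂ} (h : GLift ρ ψ) (n : ℤ) : ∃ c, Val ρ n c := by
  obtain ⟨c, hc⟩ := exists_wind ((h.hq_cont n).comp cont_gam) (fun s => h.hq_ne n _)
  exact ⟨c, ψ, h, hc⟩

theorem Val.mul {ρ η : homeoFix bd} {n : ℤ} {c d : ℂ} (h : Val ρ n c) (h' : Val η n d) :
    Val (ρ * η) n (c + d) := by
  obtain ⟨ψ, h1, h2⟩ := h
  obtain ⟨χ, h3, h4⟩ := h'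
  refine ⟨_, h1.mul h3, ?_⟩
  obtain ⟨L, a1, a2⟩ := exists_log (h1.hq_cont n) (h1.hq_ne n)
  have h5 : Wind (fun s => hq ψ (qq n) (χ (gam s))) c := by
    refine ⟨fun s => L (χ (gam s)), a1.comp (h3.cont.comp cont_gam), fun _ => a2 _, ?_⟩
    rw [h2.unique ⟨fun s => L (gam s), a1.comp cont_gam, fun _ => a2 _, rfl⟩]
    simp only [gam_zero, gam_one, h3.fix _ pt_notMem, h3.fix _ one_notMem]
  convert h5.mul h4 using 2 with s
  have e1 := gam_ne s n
  have e2 := h3.ne e1
  rw [hq_eq e1, hq_eq e1, hq_eq e2, div_mul_div_cancel₀ (sub_ne_zero.2 e2)]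
  rfl

/-- Computation of the invariant by an isotopy of the cover. -/
theorem val_of_isotopy {ρ : homeoFix bd} {n : ℤ} {R : ℝ × ℂ → ℂ} (hc : Continuous R)
    (h0 : ∀ w, R (0, w) = w) (h1 : GLift ρ (fun w => R (1, w)))
    (hne : ∀ t w, w ≠ qq n → R (t, w) ≠ R (t, qq n)) {a b : ℂ}
    (ha : Wind (fun t => R (t, 0) - R (t, qq n)) a)
    (hb : Wind (fun t => R (t, pt) - R (t, qq n)) b) : Val ρ n (b - a) := by
  obtain ⟨c, ψ, h2, h3⟩ := h1.val n
  obtain rfl := h1.unique h2
  refine ⟨_, h1, ?_⟩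
  have hg := cont_gam
  have hs := fun s => sub_ne_zero.2 (gam_ne s n)
  have := wind_square (G := fun x => (R (x.1, gam x.2) - R (x.1, qq n)) * (gam x.2 - qq n)⁻¹)
    (Continuous.mul (by fun_prop) (Continuous.inv₀ (by fun_prop) (fun x => hs _)))
    (fun x => mul_ne_zero (sub_ne_zero.2 (hne _ _ (gam_ne _ n))) (inv_ne_zero (hs _)))
    (by simpa only [gam_zero] using ha.mul (wind_const (inv_ne_zero (hs 0))))
    (by simpa only [gam_one] using hb.mul (wind_const (inv_ne_zero (hs 1))))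
    (c := 0) (d := c) (by simpa only [h0, mul_inv_cancel₀ (hs _)] using wind_const one_ne_zero) (by
      convert h3 using 2 with s
      have := h1.fix _ (fun h => qq_notMem n (Int_sub h))
      rw [hq_eq (gam_ne s n), this, div_eq_mul_inv])
  convert h3 using 1
  linear_combination -this

theorem val_isotopic {ρ : homeoFix bd} (h : IsotopicToId bd ρ) (n : ℤ) : Val ρ n 0 := by
  classical
  obtain ⟨H, h0, h1, h2⟩ := h
  choose e he using h2
  let pr : ℝ → unitInterval := Set.projIcc 0 1 zero_le_one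
  have hpr : Continuous pr := continuous_projIcc
  have hE : Continuous (fun x : ℝ × ℂ => ext (e (pr x.1)).1 x.2) := by
    refine (continuous_paste isClosed_Surf isOpen_Int Int_sub
      (H := fun x : ℝ × Surf => (H (pr x.1, x.2) : ℂ)) (by fun_prop) continuous_id ?_).congr ?_
    · intro t z hz
      rw [he, (e _).2 z (mem_bd.2 hz)]; rfl
    · intro x
      simp only [ext, he, id]
  obtain ⟨L, a1, a2⟩ := exists_log (h := fun x : ℝ × ℂ => ext (e (pr x.1)).1 (cexp x.2))
    (hE.comp (f := fun x : ℝ × ℂ => (x.1, cexp x.2)) (by fun_prop))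
    (fun x => ext_ne _ (Complex.exp_ne_zero _))
  have b0 : ∀ w, L (0, w) - L (0, 0) = w := by
    intro w
    have := sub_const' (f := fun w => L (0, w)) (g := id) (by fun_prop) continuous_id (by
      intro w
      rw [a2]
      unfold ext
      split_ifs with h
      · rw [← he, show pr 0 = 0 by simp [pr], h0]; rfl
      · rfl) w 0
    simp only [id] at this
    linear_combination this
  have b1 : cexp (L (0, 0)) = 1 := by rw [a2, ext_fix _ one_notMem, Complex.exp_zero]
  have b2 : ∀ t w, cexp w ∉ Int' → L (t, w) - L (0, 0) = w := by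
    intro t w hw
    have := sub_const' (f := fun t => L (t, w)) (g := fun _ => w) (by fun_prop) continuous_const
      (fun t => by rw [a2, ext_fix _ hw]) t 0
    have := b0 w
    grind
  have b3 : ∀ t, GLift (e (pr t)) (fun w => L (t, w) - L (0, 0)) := fun t =>
    ⟨by fun_prop, fun w => by rw [Complex.exp_sub, a2, b1, div_one], b2 t⟩
  have b4 : e (pr 1) = ρ := Subtype.ext (Homeomorph.ext fun x => by
    rw [← he, show pr 1 = 1 by simp [pr], h1])
  have hq' := fun t => b2 t _ (fun h => qq_notMem n (Int_sub h))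
  have := val_of_isotopy (R := fun x => L x - L (0, 0)) (by fun_prop) b0 (b4 ▸ b3 1)
    (fun t w hw => by rw [hq']; exact (b3 t).ne hw) (a := 0) (b := 0)
    (by simpa only [hq', b2 _ _ one_notMem, gam_zero] using
      wind_const (sub_ne_zero.2 (gam_ne 0 n)))
    (by simpa only [hq', b2 _ _ pt_notMem, gam_one] using
      wind_const (sub_ne_zero.2 (gam_ne 1 n)))
  simpa using this

end Pool.Agent.Lib.MP_988b7a_gt
end

-- part Pool.Agent.Lib.MP_988b7a_gt.Map
section

/-! The map to the bouquet. -/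

namespace Pool.Agent.Lib.MP_988b7a_gt

open Complex Real

noncomputable def mm (x : ℂ) : ℂ := ((|x.re| : ℝ) - x.im * Complex.I) / (normSq x : ℝ)

/-- Radial projection to the circle followed by the collapse of the right half circle. -/
noncomputable def col (x : ℂ) : ℂ := x * mm x

theorem mm_slit {x : ℂ} (h : x ≠ 0) : mm x ∈ slitPlane := by
  have h1 : 0 < normSq x := normSq_pos.2 h
  rw [mem_slitPlane_iff, mm, div_ofReal_re, div_ofReal_im]
  by_cases e : x.re = 0
  · right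
    have : x.im ≠ 0 := fun e' => h (Complex.ext e e')
    simp [this, h]
  · left
    have := abs_pos.2 e
    simp only [sub_re, ofReal_re, mul_re, I_re, mul_zero, ofReal_im, I_im, mul_one, sub_self,
      sub_zero]
    positivity

theorem norm_col {x : ℂ} (h : x ≠ 0) : ‖col x‖ = 1 := by
  have h1 : normSq (((|x.re| : ℝ) : ℂ) - x.im * Complex.I) = normSq x := by
    simp [normSq_apply]
  have h2 : normSq (col x) = 1 := by
    have := (normSq_pos.2 h).ne'
    rw [col, mm, map_mul, map_div₀, h1, normSq_ofReal]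
    field_simp
  rw [Complex.norm_def, h2, Real.sqrt_one]

theorem col_ne {x : ℂ} (h : x ≠ 0) : col x ≠ 0 := fun e => by simpa [e] using norm_col h

theorem col_eq_one {x : ℂ} (h : x ≠ 0) (h1 : 0 ≤ x.re) : col x = 1 := by
  have h2 : ((normSq x : ℝ) : ℂ) ≠ 0 := ofReal_ne_zero.2 (normSq_pos.2 h).ne'
  rw [col, mm, abs_of_nonneg h1, ← mul_div_assoc, div_eq_one_iff_eq h2, ← mul_conj]
  congr 1
  apply Complex.ext <;> simp

theorem cont_mm {A : Type} [TopologicalSpace A] {g : A → ℂ} (hg : Continuous g)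
    (h : ∀ a, g a ≠ 0) : Continuous (fun a => mm (g a)) := by
  unfold mm
  exact Continuous.div (by fun_prop) (continuous_ofReal.comp (continuous_normSq.comp hg))
    (fun a => ofReal_ne_zero.2 (normSq_pos.2 (h a)).ne')

theorem cont_lm {A : Type} [TopologicalSpace A] {g : A → ℂ} (hg : Continuous g)
    (h : ∀ a, g a ≠ 0) : Continuous (fun a => Complex.log (mm (g a))) :=
  (cont_mm hg h).clog (fun a => mm_slit (h a))

theorem exp_lm {x : ℂ} (h : x ≠ 0) : cexp (Complex.log (mm x)) = mm x :=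
  Complex.exp_log (slitPlane_ne_zero (mm_slit h))

theorem sub_ne {z : ℂ} (h : z ∈ Surf) (i : Fin 6) (hi : i ≠ 0) : z - ctr i ≠ 0 := by
  intro e
  have := h.2 i hi
  rw [e, norm_zero] at this
  fin_cases i <;> simp [rad] at this hi <;> linarith

theorem sub_ne4 {z : ℂ} (h : z ∈ Surf) : z - 6 ≠ 0 ∧ z - 8 ≠ 0 ∧ z - 12 ≠ 0 ∧ z - 14 ≠ 0 :=
  ⟨by simpa [ctr] using sub_ne h 2 (by decide), by simpa [ctr] using sub_ne h 3 (by decide),
    by simpa [ctr] using sub_ne h 4 (by decide), by simpa [ctr] using sub_ne h 5 (by decide)⟩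

theorem col_mob {z : ℂ} {c : ℝ} (h : 1 ≤ ‖z - c‖) (h1 : z - (c + 1) ≠ 0) (h2 : z - (c - 1) ≠ 0) :
    col ((z - (c + 1)) / (z - (c - 1))) = 1 := by
  refine col_eq_one (div_ne_zero h1 h2) ?_
  have h3 : 1 ≤ normSq (z - c) := by rw [normSq_eq_norm_sq]; nlinarith
  rw [div_re, ← add_div]
  refine div_nonneg ?_ (normSq_nonneg _)
  simp only [normSq_apply, sub_re, sub_im, ofReal_re, ofReal_im, add_re, add_im, one_re,
    one_im] at h3 ⊢
  nlinarith

noncomputable def f2 (z : ℂ) : ℂ := col ((z - 8) / (z - 6)) * col ((z - 12) / (z - 14))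

theorem col_P {z : ℂ} (hz : z ∈ Surf) (h : 1 ≤ ‖z - 7‖) : col ((z - 8) / (z - 6)) = 1 := by
  have := col_mob (z := z) (c := 7) (by simpa using h) (by norm_num; exact (sub_ne4 hz).2.1)
    (by norm_num; exact (sub_ne4 hz).1)
  norm_num at this
  exact this

theorem col_Q {z : ℂ} (hz : z ∈ Surf) (h : 1 ≤ ‖z - 13‖) : col ((z - 12) / (z - 14)) = 1 := by
  obtain ⟨_, _, h1, h2⟩ := sub_ne4 hz
  refine col_eq_one (div_ne_zero h1 h2) ?_
  have h3 : 1 ≤ normSq (z - 13) := by rw [normSq_eq_norm_sq]; nlinarith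
  rw [div_re, ← add_div]
  refine div_nonneg ?_ (normSq_nonneg _)
  simp only [normSq_apply, sub_re, sub_im, re_ofNat, im_ofNat] at h3 ⊢
  nlinarith

theorem f2_eq_one {z : ℂ} (hz : z ∈ Surf) (h : 1 ≤ ‖z - 7‖) (h' : 1 ≤ ‖z - 13‖) : f2 z = 1 := by
  rw [f2, col_P hz h, col_Q hz h', mul_one]

theorem norm_f2 {z : ℂ} (hz : z ∈ Surf) : ‖f2 z‖ = 1 := by
  obtain ⟨h1, h2, h3, h4⟩ := sub_ne4 hz
  rw [f2, norm_mul, norm_col (div_ne_zero h2 h1), norm_col (div_ne_zero h3 h4), mul_one]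

theorem cont_col {A : Type} [TopologicalSpace A] {g : A → ℂ} (hg : Continuous g)
    (h : ∀ a, g a ≠ 0) : Continuous (fun a => col (g a)) := hg.mul (cont_mm hg h)

theorem cont_f2 : Continuous (fun z : Surf => f2 z) :=
  (cont_col (Continuous.div (by fun_prop) (by fun_prop) (fun z => (sub_ne4 z.2).1))
    (fun z => div_ne_zero (sub_ne4 z.2).2.1 (sub_ne4 z.2).1)).mul
  (cont_col (Continuous.div (by fun_prop) (by fun_prop) (fun z => (sub_ne4 z.2).2.2.2))
    (fun z => div_ne_zero (sub_ne4 z.2).2.2.1 (sub_ne4 z.2).2.2.2))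

theorem mem_bouquet {z : ℂ} (hz : z ∈ Surf) :
    (‖col z‖ = 1 ∧ f2 z = 1) ∨ (col z = 1 ∧ ‖f2 z‖ = 1) := by
  by_cases h : 0 ≤ z.re
  · exact Or.inr ⟨col_eq_one (ne_zero_of_mem hz) h, norm_f2 hz⟩
  · refine Or.inl ⟨norm_col (ne_zero_of_mem hz), f2_eq_one hz ?_ ?_⟩
    · have := abs_re_le_norm (z - 7)
      have := neg_abs_le (z - 7).re
      simp only [sub_re, re_ofNat] at *
      linarith
    · have := abs_re_le_norm (z - 13)
      have := neg_abs_le (z - 13).re
      simp only [sub_re, re_ofNat] at *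
      linarith

/-- The map to the bouquet. -/
noncomputable def fm : C(Surf, Bouquet) :=
  ⟨fun z => ⟨(col z, f2 z), mem_bouquet z.2⟩, Continuous.subtype_mk
    ((cont_col continuous_subtype_val (fun z => ne_zero_of_mem z.2)).prodMk cont_f2) _⟩

theorem bq_ne (x : Bouquet) : x.1.1 ≠ 0 ∧ x.1.2 ≠ 0 := by
  rcases x.2 with h | h <;> constructor <;> intro e <;> simp [e] at h

theorem cont_ext (ρ : homeoFix bd) : Continuous (ext ρ.1) := by
  classical
  exact (continuous_paste isClosed_Surf isOpen_Int Int_sub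
    (H := fun x : Unit × Surf => (ρ.1 x.2 : ℂ)) (by fun_prop) continuous_id
    (fun t z hz => by rw [ρ.2 z (mem_bd.2 hz)]; rfl)).comp (f := fun z => ((), z)) (by fun_prop)

theorem rad_pos (i : Fin 6) : 0 < rad i := by fin_cases i <;> simp [rad]

theorem exists_glift {V : Set Surf} (hV : V ⊆ bd) (hv : ∀ i, ∃ v ∈ V, v ∈ circ i)
    {ρ : homeoFix bd} (h : ρ ∈ stabHomeo hV fm) : ∃ ψ, GLift ρ ψ := by
  classical
  obtain ⟨F⟩ := (stabHomeo hV fm).inv_mem h
  obtain ⟨L, h1, h2, h3⟩ := exists_log_homotopy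
    (H := fun x => (F x).1.1 / (F (0, x.2)).1.1)
    (Continuous.div (by fun_prop) (by fun_prop) (fun x => (bq_ne _).1))
    (fun x => div_ne_zero (bq_ne _).1 (bq_ne _).1) (fun a => div_self (bq_ne _).1)
  have e0 : ∀ z, (F (0, z)).1.1 = col (ρ.1 z) := fun z => by rw [F.apply_zero]; rfl
  have e1 : ∀ z, cexp (L (1, z)) = col z / col (ρ.1 z) := fun z => by
    rw [h2, e0, F.apply_one]; rfl
  have hb : ∀ z ∈ bd, L (1, z) = 0 := by
    intro z hz
    obtain ⟨i, hi⟩ := Set.mem_iUnion.1 hz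
    obtain ⟨v, hv1, hv2⟩ := hv i
    have a1 : L (1, v) = 0 := by
      have := sub_const' (f := fun t => L (t, v)) (g := fun _ => 0) (by fun_prop) continuous_const
        (fun t => by
          rw [h2, F.eq_fst t hv1, F.eq_fst 0 hv1, div_self (bq_ne _).1, Complex.exp_zero]) 1 0
      simpa [h3] using this
    have hc : IsPreconnected (circ i) := by
      rw [← Topology.IsInducing.subtypeVal.isPreconnected_image]
      convert isPreconnected_sphere (E := ℂ) (by rw [Complex.rank_real_complex]; norm_num)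
        (ctr i) (rad i)
      ext x
      simp only [circ, Set.mem_image, Set.mem_setOf_eq, mem_sphere_iff_norm]
      exact ⟨by rintro ⟨y, h, rfl⟩; exact h, fun h => ⟨⟨x, sphere_sub i h⟩, h, rfl⟩⟩
    have := sub_const hc (f := fun z => L (1, z)) (g := fun _ => 0) (by fun_prop)
      continuousOn_const (fun y hy => by
        rw [e1, ρ.2 y (Set.mem_iUnion.2 ⟨i, hy⟩), div_self (col_ne (ne_zero_of_mem y.2)),
          Complex.exp_zero]) hi hv2
    simpa [a1] using this
  let b : ℂ → ℂ := fun z => if hz : z ∈ Surf then L (1, ⟨z, hz⟩) else 0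
  have hbc : Continuous b := (continuous_paste isClosed_Surf isOpen_Int Int_sub
    (H := fun x : Unit × Surf => L (1, x.2)) (by fun_prop) continuous_const
    (fun t z hz => hb z (mem_bd.2 hz))).comp (f := fun z => ((), z)) (by fun_prop)
  have hb0 : ∀ z, z ∉ Int' → b z = 0 := by
    intro z hz
    simp only [b]
    split_ifs with h
    · exact hb _ (mem_bd.2 hz)
    · rfl
  have hbe : ∀ z, z ≠ 0 → cexp (b z) = col z / col (ext ρ.1 z) := by
    intro z hz
    by_cases h : z ∈ Surf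
    · simp only [b, ext, dif_pos h, e1]
    · simp only [b, ext, dif_neg h, div_self (col_ne hz), Complex.exp_zero]
  have he := Complex.exp_ne_zero
  refine ⟨fun w => w - b (cexp w) + Complex.log (mm (cexp w)) -
    Complex.log (mm (ext ρ.1 (cexp w))), ?_, fun w => ?_, fun w hw => ?_⟩
  · exact ((continuous_id.sub (hbc.comp Complex.continuous_exp)).add
      (cont_lm Complex.continuous_exp he)).sub
      (cont_lm ((cont_ext ρ).comp Complex.continuous_exp) (fun w => ext_ne _ (he w)))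
  · have a1 := ext_ne ρ.1 (he w)
    have a2 := slitPlane_ne_zero (mm_slit a1)
    have a3 := slitPlane_ne_zero (mm_slit (he w))
    have a4 := he w
    rw [Complex.exp_sub, Complex.exp_add, Complex.exp_sub, hbe _ a4, exp_lm a4, exp_lm a1, col, col]
    field_simp
  · rw [hb0 _ hw, ext_fix ρ hw]; ring

/-- The boundary curves are not sent to nullhomotopic loops. -/
theorem no_log {c : ℂ} {r : ℝ} (hr : 0 < r) {g : Metric.sphere c r → ℂ} (hg : Continuous g)
    {ε : ℤ} (h : ∀ z, cexp (g z) = (z.1 - c) ^ ε) : ε = 0 := by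
  let z : ℝ → Metric.sphere c r := fun t => ⟨c + r * cexp (t * (2 * π * Complex.I)), by
    simp [Complex.norm_exp, hr.le]⟩
  have hz : Continuous z := Continuous.subtype_mk (by fun_prop) _
  have h0 : z 1 = z 0 := Subtype.ext (by simp [z])
  have := sub_const' (f := fun t => g (z t))
    (g := fun t : ℝ => ε * (Real.log r + t * (2 * π * Complex.I))) (by fun_prop) (by fun_prop)
    (fun t => by
      rw [h, Complex.exp_int_mul, Complex.exp_add, ← ofReal_exp, Real.exp_log hr]; simp [z]) 1 0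
  simp only [h0] at this
  have h2 : (ε : ℂ) * (2 * π * Complex.I) = 0 := by
    push_cast at this
    linear_combination -this
  simpa using h2

end Pool.Agent.Lib.MP_988b7a_gt
end

-- part Pool.Agent.Lib.MP_988b7a_gt.Ess
section

/-! The boundary curves are essential. -/

namespace Pool.Agent.Lib.MP_988b7a_gt

open Complex Real

theorem null_log {A : Type} [TopologicalSpace A] {g : C(A, Bouquet)} (h : g.Nullhomotopic)
    {k : Bouquet → ℂ} (hk : Continuous k) (h0 : ∀ x, k x ≠ 0) :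
    ∃ L : A → ℂ, Continuous L ∧ ∀ a, cexp (L a) = k (g a) := by
  obtain ⟨y, hy⟩ := h
  obtain ⟨F⟩ := hy.symm
  obtain ⟨L, h1, h2, _⟩ := exists_log_homotopy (H := fun x => k (F x) / k y) (by fun_prop)
    (fun x => div_ne_zero (h0 _) (h0 _)) (fun a => by rw [F.apply_zero]; exact div_self (h0 _))
  refine ⟨fun a => L (1, a) + Complex.log (k y), by fun_prop, fun a => ?_⟩
  rw [Complex.exp_add, h2, Complex.exp_log (h0 _), F.apply_one, div_mul_cancel₀ _ (h0 _)]

theorem no_log_mob {a b : ℝ} (hab : 1 ≤ |a - b|) {ε : ℤ} {g : Metric.sphere (a : ℂ) (1 / 2) → ℂ}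
    (hg : Continuous g) (h : ∀ z, cexp (g z) = col (((z.1 - a) / (z.1 - b)) ^ ε)) : ε = 0 := by
  have h1 : ((a : ℂ) - b) ≠ 0 := by
    rw [← ofReal_sub, ofReal_ne_zero]
    intro e; rw [e] at hab; norm_num at hab
  have hn : ∀ z : Metric.sphere (a : ℂ) (1 / 2), ‖z.1 - a‖ = 1 / 2 :=
    fun z => mem_sphere_iff_norm.1 z.2
  have h2 : ∀ z : Metric.sphere (a : ℂ) (1 / 2), 1 + (z.1 - a) / (a - b) ∈ slitPlane := by
    intro z
    refine mem_slitPlane_of_norm_lt_one ?_
    rw [norm_div, hn, ← ofReal_sub, norm_real, Real.norm_eq_abs, div_lt_one (by linarith)]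
    linarith
  have h3 : ∀ z : Metric.sphere (a : ℂ) (1 / 2), z.1 - b = (a - b) * (1 + (z.1 - a) / (a - b)) := by
    intro z; field_simp; ring
  have h4 : ∀ z : Metric.sphere (a : ℂ) (1 / 2), z.1 - b ≠ 0 :=
    fun z => h3 z ▸ mul_ne_zero h1 (slitPlane_ne_zero (h2 z))
  have h6 : ∀ z : Metric.sphere (a : ℂ) (1 / 2), z.1 - a ≠ 0 :=
    fun z e => by have := hn z; rw [e] at this; norm_num at this
  have h5 : ∀ z : Metric.sphere (a : ℂ) (1 / 2), ((z.1 - a) / (z.1 - b)) ^ ε ≠ 0 := fun z =>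
    zpow_ne_zero _ (div_ne_zero (h6 z) (h4 z))
  refine no_log (c := a) (r := 1 / 2) (by norm_num)
    (g := fun z => g z - Complex.log (mm (((z.1 - a) / (z.1 - b)) ^ ε)) +
      ε * (Complex.log (a - b) + Complex.log (1 + (z.1 - a) / (a - b)))) ?_ (fun z => ?_)
  · refine (hg.sub (cont_lm (Continuous.zpow₀ (Continuous.div (by fun_prop) (by fun_prop) h4) _
      (fun z => ?_)) h5)).add (continuous_const.mul (continuous_const.add
        (Continuous.clog (by fun_prop) h2)))
    left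
    exact div_ne_zero (h6 z) (h4 z)
  · have a1 := slitPlane_ne_zero (mm_slit (h5 z))
    have a2 := zpow_ne_zero ε (h4 z)
    rw [Complex.exp_add, Complex.exp_sub, h, exp_lm (h5 z), Complex.exp_int_mul, Complex.exp_add,
      Complex.exp_log h1, Complex.exp_log (slitPlane_ne_zero (h2 z)), ← h3, col,
      mul_div_cancel_right₀ _ a1, div_zpow, div_mul_cancel₀ _ a2]

theorem far {z : ℂ} {a b : ℝ} (h : ‖z - a‖ = 1 / 2) (hab : 2 ≤ |a - b|) : 1 ≤ ‖z - b‖ := by
  have h2 := norm_sub_le (z - b) (z - a)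
  rw [sub_sub_sub_cancel_left, ← ofReal_sub, norm_real, Real.norm_eq_abs] at h2
  linarith

theorem essential (i : Fin 6) : ¬ (fm.restrict (circ i)).Nullhomotopic := by
  intro h
  let j : Metric.sphere (ctr i : ℂ) (rad i) → circ i := fun z =>
    ⟨⟨z.1, sphere_sub i (mem_sphere_iff_norm.1 z.2)⟩, mem_sphere_iff_norm.1 z.2⟩
  have hj : Continuous j := Continuous.subtype_mk (Continuous.subtype_mk (by fun_prop) _) _
  obtain ⟨L1, a1, a2⟩ := null_log h (k := fun x => x.1.1) (by fun_prop) (fun x => (bq_ne x).1)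
  obtain ⟨L2, b1, b2⟩ := null_log h (k := fun x => x.1.2) (by fun_prop) (fun x => (bq_ne x).2)
  have hS : ∀ z : Metric.sphere (ctr i : ℂ) (rad i), z.1 ∈ Surf := fun z => (j z).1.2
  have c1 : ∀ z, cexp (L1 (j z)) = col z.1 := fun z => a2 _
  have c2 : ∀ z, cexp (L2 (j z)) = f2 z.1 := fun z => b2 _
  have d1 := a1.comp hj
  have d2 := b1.comp hj
  have c0 : ctr i = 0 → False := by
    intro e
    have := no_log (rad_pos i) (g := fun z => L1 (j z) - Complex.log (mm z.1)) (ε := 1)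
      (d1.sub (cont_lm (by fun_prop) (fun z => ne_zero_of_mem (hS z)))) (fun z => by
        have a := ne_zero_of_mem (hS z)
        rw [Complex.exp_sub, c1, exp_lm a, col,
          mul_div_cancel_right₀ _ (slitPlane_ne_zero (mm_slit a))]
        simp [e])
    simp at this
  have hn : ∀ z : Metric.sphere (ctr i : ℂ) (rad i), ‖z.1 - ctr i‖ = rad i :=
    fun z => mem_sphere_iff_norm.1 z.2
  fin_cases i
  · exact c0 rfl
  · exact c0 rfl
  · have := no_log_mob (a := 6) (b := 8) (by norm_num) (ε := -1) d2 (fun z => by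
      refine (c2 z).trans ?_
      rw [f2, col_Q (hS z) (by simpa using far (a := 6) (b := 13) (hn z) (by norm_num))]
      simp)
    simp at this
  · have := no_log_mob (a := 8) (b := 6) (by norm_num) (ε := 1) d2 (fun z => by
      refine (c2 z).trans ?_
      rw [f2, col_Q (hS z) (by simpa using far (a := 8) (b := 13) (hn z) (by norm_num))]
      simp)
    simp at this
  · have := no_log_mob (a := 12) (b := 14) (by norm_num) (ε := 1) d2 (fun z => by
      refine (c2 z).trans ?_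
      rw [f2, col_P (hS z) (by simpa using far (a := 12) (b := 7) (hn z) (by norm_num))]
      simp)
    simp at this
  · have := no_log_mob (a := 14) (b := 12) (by norm_num) (ε := -1) d2 (fun z => by
      refine (c2 z).trans ?_
      rw [f2, col_P (hS z) (by simpa using far (a := 14) (b := 7) (hn z) (by norm_num))]
      simp)
    simp at this

end Pool.Agent.Lib.MP_988b7a_gt
end

-- part Pool.Agent.Lib.MP_988b7a_gt.Twist
section

/-! Dehn twists about null-curves. -/

namespace Pool.Agent.Lib.MP_988b7a_gt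

open Complex Real

noncomputable def cl (x : ℝ) : ℝ := 2 * π * max 0 (min x 1)

theorem cont_cl : Continuous cl := by unfold cl; fun_prop
theorem cl_low {x : ℝ} (h : x ≤ 0) : cl x = 0 := by
  rw [cl, max_eq_left ((min_le_left _ _).trans h), mul_zero]
theorem cl_high {x : ℝ} (h : 1 ≤ x) : cl x = 2 * π := by
  rw [cl, min_eq_right h, max_eq_right zero_le_one, mul_one]

noncomputable def ph (u : ℝ) (z : ℂ) : ℂ := z * cexp ((u * cl ((‖z‖ - 9) / 2) : ℝ) * Complex.I)
noncomputable def tt (u : ℝ) (z : ℂ) : ℂ :=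
  10 + (z - 10) * cexp ((u * cl (6 - ‖z - 10‖) : ℝ) * Complex.I)

@[fun_prop] theorem cont_ph {A : Type} [TopologicalSpace A] {u : A → ℝ} {z : A → ℂ}
    (hu : Continuous u) (hz : Continuous z) : Continuous (fun a => ph (u a) (z a)) := by
  have := cont_cl
  unfold ph; fun_prop

@[fun_prop] theorem cont_tt {A : Type} [TopologicalSpace A] {u : A → ℝ} {z : A → ℂ}
    (hu : Continuous u) (hz : Continuous z) : Continuous (fun a => tt (u a) (z a)) := by
  have := cont_cl
  unfold tt; fun_prop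

theorem norm_ph (u : ℝ) (z : ℂ) : ‖ph u z‖ = ‖z‖ := by
  rw [ph, norm_mul, norm_exp_ofReal_mul_I, mul_one]

theorem norm_tt (u : ℝ) (z : ℂ) : ‖tt u z - 10‖ = ‖z - 10‖ := by
  rw [tt, add_sub_cancel_left, norm_mul, norm_exp_ofReal_mul_I, mul_one]

theorem ph_ph (u : ℝ) (z : ℂ) : ph (-u) (ph u z) = z := by
  rw [ph, norm_ph, ph, mul_assoc, ← Complex.exp_add]
  simp

theorem tt_tt (u : ℝ) (z : ℂ) : tt (-u) (tt u z) = z := by
  rw [tt, norm_tt, tt, add_sub_cancel_left, mul_assoc, ← Complex.exp_add]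
  simp

theorem ph_ph' (u : ℝ) (z : ℂ) : ph u (ph (-u) z) = z := by simpa using ph_ph (-u) z
theorem tt_tt' (u : ℝ) (z : ℂ) : tt u (tt (-u) z) = z := by simpa using tt_tt (-u) z

theorem exp_int (n : ℤ) : cexp (((n : ℝ) * (2 * π) : ℝ) * Complex.I) = 1 := by
  rw [← exp_int_mul_two_pi_mul_I n]; congr 1; push_cast; ring

theorem ph_fix (n : ℤ) {z : ℂ} (h : ‖z‖ ≤ 9 ∨ 11 ≤ ‖z‖) : ph n z = z := by
  rcases h with h | h
  · simp [ph, cl_low (show (‖z‖ - 9) / 2 ≤ 0 by linarith)]
  · rw [ph, cl_high (by linarith), exp_int, mul_one]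

theorem tt_out (u : ℝ) {z : ℂ} (h : 6 ≤ ‖z - 10‖) : tt u z = z := by
  simp [tt, cl_low (show 6 - ‖z - 10‖ ≤ 0 by linarith)]

theorem tt_in (u : ℝ) {z : ℂ} (h : ‖z - 10‖ ≤ 5) :
    tt u z = 10 + (z - 10) * cexp (u * (2 * π * Complex.I)) := by
  rw [tt, cl_high (by linarith)]; congr 3; push_cast; ring

theorem tt_fix {z : ℂ} (h : ¬ (5 < ‖z - 10‖ ∧ ‖z - 10‖ < 6)) : tt 1 z = z := by
  by_cases h1 : 6 ≤ ‖z - 10‖
  · exact tt_out _ h1
  · rw [tt_in _ (by by_contra h2; exact h ⟨by linarith, by linarith⟩)]; simp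

theorem re_pos {z : ℂ} (h : ‖z - 10‖ < 6) : 4 < z.re := by
  have := abs_re_le_norm (z - 10)
  have := neg_abs_le (z - 10).re
  simp only [sub_re, re_ofNat] at *
  linarith

theorem tt_slit (u : ℝ) {z : ℂ} (h : z ≠ 0) : tt u z / z ∈ slitPlane := by
  by_cases h1 : 6 ≤ ‖z - 10‖
  · rw [tt_out _ h1, div_self h]; exact one_mem_slitPlane
  have h2 := re_pos (not_le.1 h1)
  have h3 := re_pos (z := tt u z) (by rw [norm_tt]; exact not_le.1 h1)
  by_contra h4
  rw [mem_slitPlane_iff, not_or, not_lt, not_not] at h4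
  have h5 : (tt u z).re = (tt u z / z * z).re := by rw [div_mul_cancel₀ _ h]
  rw [mul_re, h4.2] at h5
  nlinarith [h4.1]

theorem tt_ne (u : ℝ) {z : ℂ} (h : z ≠ 0) : tt u z ≠ 0 :=
  fun e => slitPlane_ne_zero (tt_slit u h) (by simp [e])

theorem ph_ne (u : ℝ) {z : ℂ} (h : z ≠ 0) : ph u z ≠ 0 := mul_ne_zero h (Complex.exp_ne_zero _)

theorem collar (n : ℤ) {y : ℂ} (h : 5 < ‖y - 10‖ ∧ ‖y - 10‖ < 6) :
    ph n y ∈ Int' ∧ 1 ≤ ‖ph n y - 7‖ ∧ 1 ≤ ‖ph n y - 13‖ := by
  have h1 := norm_sub_norm_le y 10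
  have h2 := norm_sub_norm_le 10 y
  rw [norm_sub_rev] at h2
  have h3 : ‖(10 : ℂ)‖ = 10 := by simp
  have key : ∀ c : ℝ, (6 ≤ c ∧ c ≤ 8) ∨ (12 ≤ c ∧ c ≤ 14) → 1 ≤ ‖ph n y - c‖ := by
    intro c hc
    have h4 : ‖(c : ℂ)‖ = c := by rw [norm_real, Real.norm_eq_abs, abs_of_pos (by grind)]
    by_cases h5 : ‖y‖ ≤ 9 ∨ 11 ≤ ‖y‖
    · rw [ph_fix n h5]
      have h6 := norm_add_le (y - c) (c - 10)
      have h7 : ‖(c : ℂ) - 10‖ ≤ 4 := by
        rw [show (c : ℂ) - 10 = ((c - 10 : ℝ) : ℂ) by simp, norm_real, Real.norm_eq_abs, abs_le]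
        grind
      rw [sub_add_sub_cancel] at h6
      linarith [h.1]
    · have h6 := norm_sub_norm_le (ph n y) c
      have h7 := norm_sub_norm_le (c : ℂ) (ph n y)
      rw [norm_sub_rev] at h7
      rw [norm_ph, h4] at h6 h7
      grind
  refine ⟨⟨by rw [norm_ph]; linarith [h.2], fun i hi => ?_⟩, by simpa using key 7 (by norm_num),
    by simpa using key 13 (by norm_num)⟩
  fin_cases i
  · exact absurd rfl hi
  · simp [rad, ctr, norm_ph]; linarith [h.2]
  all_goals exact lt_of_lt_of_le (by norm_num [rad]) (key _ (by norm_num [ctr]))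

noncomputable def plane (n : ℤ) : ℂ ≃ₜ ℂ where
  toFun z := ph n (tt 1 (ph (-n) z))
  invFun z := ph n (tt (-1) (ph (-n) z))
  left_inv z := by simp only [ph_ph, tt_tt, ph_ph']
  right_inv z := by simp only [ph_ph, tt_tt', ph_ph']
  continuous_toFun := by fun_prop
  continuous_invFun := by fun_prop

theorem tt_fix' (n : ℤ) {z : ℂ} (h : z ∉ Int') : tt 1 (ph (-n) z) = ph (-n) z :=
  tt_fix (fun h1 => h (by simpa only [ph_ph'] using (collar n h1).1))

theorem plane_fix (n : ℤ) {z : ℂ} (h : z ∉ Int') : plane n z = z := by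
  show ph n (tt 1 (ph (-n) z)) = z
  rw [tt_fix' n h, ph_ph']

noncomputable def rho (n : ℤ) : homeoFix bd :=
  ⟨(plane n).subtype (fun z => ⟨fun h => by
      by_contra h1
      have := (plane n).injective (plane_fix n (fun h2 => h1 (Int_sub h2)))
      exact h1 (by rwa [this]), fun h => by
      by_contra h1
      exact h1 (plane_fix n (fun h2 => h1 (Int_sub h2)) ▸ h)⟩),
    fun z hz => Subtype.ext (plane_fix n (mem_bd.1 hz))⟩

theorem ext_rho (n : ℤ) (z : ℂ) : ext (rho n).1 z = plane n z := by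
  unfold ext
  split_ifs with h
  · rfl
  · exact (plane_fix n (fun h2 => h (Int_sub h2))).symm

theorem rho_mem {V : Set Surf} (hV : V ⊆ bd) (n : ℤ) : rho n ∈ stabHomeo hV fm := by
  let d : ℂ → ℂ := fun y => Complex.log (tt 1 y / y) +
    ((n * cl ((‖tt 1 y‖ - 9) / 2) : ℝ) * Complex.I - (n * cl ((‖y‖ - 9) / 2) : ℝ) * Complex.I) +
    Complex.log (mm (ph n (tt 1 y))) - Complex.log (mm (ph n y))
  have hd0 : ∀ y, y ≠ 0 → tt 1 y = y → d y = 0 := fun y h0 h => by simp [d, h, h0]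
  have hde : ∀ y, y ≠ 0 → col (ph n y) * cexp (d y) = col (ph n (tt 1 y)) := by
    intro y h0
    have a1 := ph_ne n h0
    have a2 := ph_ne n (tt_ne 1 h0)
    have a3 := slitPlane_ne_zero (mm_slit a1)
    have a4 := Complex.exp_ne_zero ((n * cl ((‖y‖ - 9) / 2) : ℝ) * Complex.I)
    simp only [d]
    rw [Complex.exp_sub, Complex.exp_add, Complex.exp_add, Complex.exp_sub, exp_lm a1, exp_lm a2,
      Complex.exp_log (slitPlane_ne_zero (tt_slit 1 h0)), col, col]
    generalize mm (ph n y) = m1 at *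
    generalize mm (ph n (tt 1 y)) = m2
    unfold ph
    field_simp
  have hre : ∀ y, y ≠ 0 → (d y).re = 0 := by
    intro y h0
    have := congrArg norm (hde y h0)
    rw [norm_mul, norm_col (ph_ne n h0), norm_col (ph_ne n (tt_ne 1 h0)), one_mul,
      Complex.norm_exp] at this
    simpa using this
  have hy : ∀ z : Surf, ph (-n) z ≠ 0 := fun z => ph_ne _ (ne_zero_of_mem z.2)
  have hdc : Continuous (fun z : Surf => d (ph (-n) z)) := by
    have := cont_cl
    exact (((Continuous.clog (Continuous.div (by fun_prop) (by fun_prop) hy)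
      (fun z => tt_slit 1 (hy z))).add (by fun_prop)).add
      (cont_lm (by fun_prop) (fun z => ph_ne _ (tt_ne _ (hy z))))).sub
      (cont_lm (by fun_prop) (fun z => ph_ne _ (hy z)))
  have hf2 : ∀ z : Surf, tt 1 (ph (-n) z) ≠ ph (-n) z → f2 z = 1 ∧ f2 (plane n z) = 1 := by
    intro z h
    have h1 : 5 < ‖ph (-n) z - 10‖ ∧ ‖ph (-n) z - 10‖ < 6 := by
      by_contra h1; exact h (tt_fix h1)
    have h2 := collar n h1
    rw [ph_ph'] at h2
    have h3 := collar n (y := tt 1 (ph (-n) z)) (by rwa [norm_tt])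
    exact ⟨f2_eq_one z.2 h2.2.1 h2.2.2, f2_eq_one (Int_sub h3.1) h3.2.1 h3.2.2⟩
  have hm : ∀ x : unitInterval × Surf, (‖col x.2 * cexp ((x.1 : ℝ) * d (ph (-n) x.2))‖ = 1 ∧
      f2 x.2 = 1) ∨ (col x.2 * cexp ((x.1 : ℝ) * d (ph (-n) x.2)) = 1 ∧ ‖f2 x.2‖ = 1) := by
    intro x
    by_cases h : tt 1 (ph (-n) x.2) = ph (-n) x.2
    · simpa [hd0 _ (hy x.2) h] using mem_bouquet x.2.2
    · refine Or.inl ⟨?_, (hf2 _ h).1⟩
      simp [norm_col (ne_zero_of_mem x.2.2), Complex.norm_exp, hre _ (hy x.2)]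
  let G : C(unitInterval × Surf, Bouquet) := ⟨fun x => ⟨(col x.2 * cexp ((x.1 : ℝ) *
    d (ph (-n) x.2)), f2 x.2), hm x⟩, Continuous.subtype_mk (Continuous.prodMk
      (((cont_col continuous_subtype_val (fun z => ne_zero_of_mem z.2)).comp
        continuous_snd).mul (Complex.continuous_exp.comp (Continuous.mul (by fun_prop)
          (hdc.comp continuous_snd)))) (cont_f2.comp continuous_snd)) _⟩
  have hG : ∀ t z, (G (t, z)).1 = (col z * cexp ((t : ℝ) * d (ph (-n) z)), f2 z) :=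
    fun _ _ => rfl
  rw [← (stabHomeo hV fm).inv_mem_iff]
  refine ContinuousMap.HomotopicRel.symm ⟨⟨⟨G, fun z => Subtype.ext ?_, fun z => Subtype.ext ?_⟩,
    fun t z hz => Subtype.ext ?_⟩⟩
  · show (G (0, z)).1 = (col z, f2 z)
    simp [hG]
  · show (G (1, z)).1 = (col (ph n (tt 1 (ph (-n) z))), f2 (ph n (tt 1 (ph (-n) z))))
    have := hde _ (hy z)
    rw [ph_ph'] at this
    rw [hG, ← this]
    refine Prod.ext (by simp) ?_
    by_cases h : tt 1 (ph (-n) z) = ph (-n) z
    · show f2 z = f2 (ph n (tt 1 (ph (-n) z)))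
      rw [h, ph_ph']
    · exact (hf2 _ h).1.trans (hf2 _ h).2.symm
  · show (G (t, z)).1 = (col z, f2 z)
    simp [hG, hd0 _ (hy z) (tt_fix' n (mem_bd.1 (hV hz)))]

end Pool.Agent.Lib.MP_988b7a_gt
end

-- part Pool.Agent.Lib.MP_988b7a_gt.Main
section

/-! The invariants of the twists and the main theorem. -/

namespace Pool.Agent.Lib.MP_988b7a_gt

open Complex Real

noncomputable def pl (u : ℝ) (w : ℂ) : ℂ := w + (u * cl ((‖cexp w‖ - 9) / 2) : ℝ) * Complex.I
noncomputable def tl (u : ℝ) (w : ℂ) : ℂ := w + Complex.log (tt u (cexp w) / cexp w)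

@[fun_prop] theorem cont_pl {A : Type} [TopologicalSpace A] {u : A → ℝ} {z : A → ℂ}
    (hu : Continuous u) (hz : Continuous z) : Continuous (fun a => pl (u a) (z a)) := by
  have := cont_cl
  unfold pl; fun_prop

@[fun_prop] theorem cont_tl {A : Type} [TopologicalSpace A] {u : A → ℝ} {z : A → ℂ}
    (hu : Continuous u) (hz : Continuous z) : Continuous (fun a => tl (u a) (z a)) :=
  hz.add (Continuous.clog (Continuous.div (by fun_prop) (by fun_prop)
    (fun _ => Complex.exp_ne_zero _)) (fun _ => tt_slit _ (Complex.exp_ne_zero _)))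

theorem exp_pl (u : ℝ) (w : ℂ) : cexp (pl u w) = ph u (cexp w) := by rw [pl, Complex.exp_add, ph]

theorem exp_tl (u : ℝ) (w : ℂ) : cexp (tl u w) = tt u (cexp w) := by
  rw [tl, Complex.exp_add, Complex.exp_log (slitPlane_ne_zero (tt_slit _ (Complex.exp_ne_zero _))),
    mul_div_cancel₀ _ (Complex.exp_ne_zero _)]

theorem pl_pl (u : ℝ) (w : ℂ) : pl (-u) (pl u w) = w := by
  rw [pl, exp_pl, norm_ph, pl]; simp

theorem pl_pl' (u : ℝ) (w : ℂ) : pl u (pl (-u) w) = w := by simpa using pl_pl (-u) w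

theorem pl_inj (u : ℝ) : Function.Injective (pl u) := Function.LeftInverse.injective (pl_pl u)

theorem tl_inj (u : ℝ) : Function.Injective (tl u) := by
  intro a b h
  have h1 := congrArg (fun w => tt (-u) (cexp w)) h
  simp only [exp_tl, tt_tt] at h1
  simpa [tl, h1] using h

theorem tl_fix {u : ℝ} {w : ℂ} (h : tt u (cexp w) = cexp w) : tl u w = w := by simp [tl, h]

theorem glift_rho (n : ℤ) : GLift (rho n) (fun w => pl n (tl 1 (pl (-n) w))) :=
  ⟨by fun_prop, fun w => by rw [exp_pl, exp_tl, exp_pl, ext_rho]; rfl,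
    fun w hw => by rw [tl_fix (by rw [exp_pl]; exact tt_fix' n hw), pl_pl']⟩

theorem pl_low (u : ℝ) {w : ℂ} (h : ‖cexp w‖ ≤ 9) : pl u w = w := by
  simp [pl, cl_low (show (‖cexp w‖ - 9) / 2 ≤ 0 by linarith)]

theorem pl_qq (n m : ℤ) : pl (-n) (qq m) = qq (m - n) := by
  rw [pl, exp_qq, cl_high (by norm_num), qq, qq]; push_cast; ring

theorem tt8 (t : ℝ) : tt t 8 = 10 - 2 * cexp (t * (2 * π * Complex.I)) := by
  rw [tt_in _ (by norm_num)]; ring

theorem tt12 (t : ℝ) : tt t 12 = 10 + 2 * cexp (t * (2 * π * Complex.I)) := by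
  rw [tt_in _ (by norm_num)]; ring

theorem tl_im (t : ℝ) {w : ℂ} {a : ℝ} (ha : cexp w = a) (h : ‖(a : ℂ) - 10‖ < 6) :
    |(tl t w).im - w.im| < π / 2 := by
  have h1 := re_pos (z := tt t a) (by rwa [norm_tt])
  have h2 := re_pos h
  rw [tl, add_im, add_sub_cancel_left, log_im, ha, abs_arg_lt_pi_div_two_iff, div_ofReal_re]
  rw [ofReal_re] at h2
  left; positivity

theorem wind_diff (k : ℤ) :
    Wind (fun t => tl t pt - tl t (qq k)) (if k = 0 then 2 * π * Complex.I else 0) := by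
  have h1 := fun t => tl_im t (a := 8) (w := pt) (by simpa using exp_pt) (by norm_num)
  have h2 := fun t => tl_im t (a := 12) (w := qq k) (by simpa using exp_qq k) (by norm_num)
  have e1 : pt.im = 0 := ofReal_im _
  have e2 : (qq k).im = k * (2 * π) := by rw [qq, add_im, ofReal_im]; simp
  have l1 : tl 1 pt = tl 0 pt := by simp [tl, exp_pt, tt8]
  have l2 : tl 1 (qq k) = tl 0 (qq k) := by simp [tl, exp_qq, tt12]
  have hpi := pi_pos
  split_ifs with hk
  swap
  · refine wind_slit (by fun_prop) (fun t => Or.inr ?_) (by rw [l1, l2])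
    have a1 := abs_lt.1 (h1 t)
    have a2 := abs_lt.1 (h2 t)
    rw [sub_im]
    rcases lt_or_gt_of_ne hk with h | h
    · have : (k : ℝ) ≤ -1 := by exact_mod_cast (show k ≤ -1 by omega)
      nlinarith
    · have : (1 : ℝ) ≤ k := by exact_mod_cast h
      nlinarith
  subst hk
  have hds : Continuous (dslope cexp 0) := by
    rw [← continuousOn_univ, continuousOn_dslope Filter.univ_mem]
    exact ⟨by fun_prop, by fun_prop⟩
  have hd : ∀ z, z * dslope cexp 0 z = cexp z - 1 := fun z => by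
    simpa using sub_smul_dslope cexp 0 z
  obtain ⟨L, a1, a2⟩ := exists_log
    (h := fun z : ℂ => dslope cexp 0 (z.re + (max (-π) (min z.im π) : ℝ) * Complex.I))
    (by fun_prop) (by
      intro z h
      generalize hx : (z.re + (max (-π) (min z.im π) : ℝ) * Complex.I : ℂ) = x at h
      have b1 : |x.im| ≤ π := by
        rw [← hx, abs_le]
        simp only [add_im, ofReal_im, mul_im, ofReal_re, I_im, I_re, mul_one, mul_zero, zero_add,
          add_zero]
        exact ⟨le_max_left _ _, max_le (by linarith) (min_le_right _ _)⟩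
      have b2 := hd x
      rw [h, mul_zero, eq_comm, sub_eq_zero, Complex.exp_eq_one_iff] at b2
      obtain ⟨j, rfl⟩ := b2
      have b3 : j = 0 := by
        by_contra hj
        have : (1 : ℝ) ≤ |(j : ℝ)| := by exact_mod_cast Int.one_le_abs hj
        simp [abs_mul, abs_of_pos hpi] at b1
        nlinarith
      simp [b3] at h)
  refine ⟨fun t => Complex.log (-4) + t * (2 * π * Complex.I) - tl t (qq 0) -
    L (tl t pt - tl t (qq 0)), by fun_prop, fun t => ?_, by simp [l1, l2]⟩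
  have b1 := abs_lt.1 (h1 t)
  have b2 := abs_lt.1 (h2 t)
  simp only [Int.cast_zero, zero_mul] at e2
  have b3 : ((tl t pt - tl t (qq 0)).re + (max (-π) (min (tl t pt - tl t (qq 0)).im π) : ℝ) *
      Complex.I : ℂ) = tl t pt - tl t (qq 0) := by
    rw [min_eq_left (by rw [sub_im]; linarith), max_eq_right (by rw [sub_im]; linarith), re_add_im]
  have b4 := hd (tl t pt - tl t (qq 0))
  have b5 := a2 (tl t pt - tl t (qq 0))
  rw [b3] at b5
  rw [← b5, Complex.exp_sub] at b4
  have b6 := Complex.exp_ne_zero (tl t (qq 0))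
  rw [Complex.exp_sub, Complex.exp_sub, Complex.exp_add, Complex.exp_log (by norm_num),
    div_eq_iff (Complex.exp_ne_zero _), b4, div_eq_iff b6, sub_mul, div_mul_cancel₀ _ b6,
    exp_tl, exp_tl, exp_pt, exp_qq, tt8, tt12]
  ring

theorem val_rho (n m : ℤ) : Val (rho n) m (if m - n = 0 then 2 * π * Complex.I else 0) := by
  have e0 : ∀ t, pl n (tl t (pl (-n) 0)) = 0 := fun t => by
    rw [pl_low _ (w := 0) (by simp), tl_fix (w := 0) (tt_out _ (by norm_num)), pl_low _ (w := 0) (by simp)]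
  have e1 : pl (-n) pt = pt := pl_low _ (by rw [exp_pt]; norm_num)
  have l1 : tl 1 pt = tl 0 pt := by simp [tl, exp_pt, tt8]
  have l2 : tl 1 (qq (m - n)) = tl 0 (qq (m - n)) := by simp [tl, exp_qq, tt12]
  have hne : pt ≠ qq (m - n) := gam_one ▸ gam_ne 1 _
  have hG : ∀ x : ℝ × ℝ, pl (x.2 * n) (tl x.1 pt) - pl (x.2 * n) (tl x.1 (qq (m - n))) ≠ 0 :=
    fun x => sub_ne_zero.2 (fun h => hne (tl_inj _ (pl_inj _ h)))
  obtain ⟨b, hb⟩ := exists_wind (A := fun t => pl (1 * n) (tl t pt) -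
    pl (1 * n) (tl t (qq (m - n)))) (by fun_prop) (fun t => hG (t, 1))
  obtain ⟨c, hc⟩ := exists_wind (A := fun u => pl (u * n) (tl 0 pt) -
    pl (u * n) (tl 0 (qq (m - n)))) (by fun_prop) (fun u => hG (0, u))
  have h1 := wind_square (by fun_prop) hG (by simpa [pl] using wind_diff (m - n)) hb hc
    (by simpa only [l1, l2] using hc)
  have h2 : Wind (fun t => -1 * pl n (tl t (qq (m - n)))) (0 + 0) := by
    refine (wind_const (by norm_num)).mul (wind_slit (by fun_prop) (fun t => Or.inl ?_)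
      (by rw [l2]))
    have a1 : ‖cexp (pl n (tl t (qq (m - n))))‖ = ‖tt t 12‖ := by
      rw [exp_pl, norm_ph, exp_tl, exp_qq]
    have a2 := re_pos (z := tt t 12) (by rw [norm_tt]; norm_num)
    have a3 := re_le_norm (tt t 12)
    rw [Complex.norm_exp] at a1
    exact Real.one_lt_exp_iff.1 (by linarith)
  have := val_of_isotopy (R := fun x => pl n (tl x.1 (pl (-n) x.2))) (n := m) (by fun_prop)
    (fun w => by rw [tl_fix (by simp [tt]), pl_pl']) (glift_rho n)
    (fun t w hw h => hw (pl_inj _ (tl_inj _ (pl_inj _ h)))) (a := 0 + 0) (b := b)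
    (by simpa only [e0, pl_qq, zero_sub, neg_one_mul] using h2)
    (by simpa only [e1, pl_qq, one_mul] using hb)
  convert this using 1
  linear_combination h1

theorem isotopic_mem {V : Set Surf} (hV : V ⊆ bd) {ρ : homeoFix bd} (h : IsotopicToId bd ρ) :
    ρ ∈ stabHomeo hV fm := by
  obtain ⟨H, h0, h1, h2⟩ := h
  rw [← (stabHomeo hV fm).inv_mem_iff]
  refine ContinuousMap.HomotopicRel.symm ⟨⟨⟨fm.comp H, fun z => by simp [h0],
    fun z => congrArg fm (h1 z)⟩, fun t z hz => ?_⟩⟩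
  obtain ⟨e, he⟩ := h2 t
  exact congrArg fm ((he z).trans (e.2 z (hV hz)))

theorem isotopic_conj {ρ : homeoFix bd} (h : IsotopicToId bd ρ) (g : homeoFix bd) :
    IsotopicToId bd (g * ρ * g⁻¹) := by
  obtain ⟨H, h0, h1, h2⟩ := h
  refine ⟨⟨fun x => g.1 (H (x.1, g.1.symm x.2)), by fun_prop⟩, fun x => by simp [h0],
    fun x => congrArg g.1 (h1 _), fun t => ?_⟩
  obtain ⟨e, he⟩ := h2 t
  exact ⟨g * e * g⁻¹, fun x => congrArg g.1 (he _)⟩

theorem not_finite {V : Set Surf} (hV : V ⊆ bd) (hv : ∀ i, ∃ v ∈ V, v ∈ circ i) :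
    ¬ Module.Finite ℤ (groupHomology (Rep.trivial ℤ (MCGf hV fm) ℤ) 1) := by
  intro hfin
  have hex : ∀ (ρ : stabHomeo hV fm) (n : ℤ), ∃ c, Val ρ.1 n c := fun ρ n =>
    (exists_glift hV hv ρ.2).elim (fun _ h => h.val n)
  choose lam hlam using hex
  let Λ : stabHomeo hV fm →* Multiplicative (ℤ → ℂ) := MonoidHom.mk' (fun ρ => .ofAdd (lam ρ))
    (fun a b => funext fun n => (hlam (a * b) n).unique ((hlam a n).mul (hlam b n)))
  have hN : Subgroup.normalClosure {ρ | IsotopicToId bd ρ} ≤ Λ.ker.map (Subgroup.subtype _) := by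
    refine (Subgroup.closure_le _).2 (fun x hx => ?_)
    obtain ⟨a, ha, hc⟩ := Group.mem_conjugatesOfSet_iff.1 hx
    obtain ⟨g, rfl⟩ := isConj_iff.1 hc
    have h1 := isotopic_conj ha g
    exact ⟨⟨_, isotopic_mem hV h1⟩, funext fun n => (hlam _ n).unique (val_isotopic h1 n), rfl⟩
  let pr : stabHomeo hV fm →* MCGf hV fm := (QuotientGroup.mk' _).subgroupMap _
  have hpr : Function.Surjective pr := MonoidHom.subgroupMap_surjective _ _
  let Λ' : MCGf hV fm →* Multiplicative (ℤ → ℂ) := pr.liftOfSurjective hpr ⟨Λ, fun x hx => by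
    obtain ⟨y, h1, h2⟩ := hN ((QuotientGroup.eq_one_iff x.1).1 (congrArg Subtype.val hx))
    exact Subtype.ext h2 ▸ h1⟩
  have hΛ : ∀ x, Λ' (pr x) = Λ x := fun x => MonoidHom.liftOfRightInverse_comp_apply ..
  have h1 : Module.Finite ℤ (Additive (Abelianization (MCGf hV fm))) :=
    Module.Finite.equiv (M := groupHomology (Rep.trivial ℤ (MCGf hV fm) ℤ) 1)
      ((groupHomology.H1AddEquivOfIsTrivial (Rep.trivial ℤ (MCGf hV fm) ℤ)).trans
        (TensorProduct.rid ℤ _).toAddEquiv).toIntLinearEquiv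
  let φ : Additive (Abelianization (MCGf hV fm)) →ₗ[ℤ] (ℤ → ℂ) :=
    (MonoidHom.toAdditiveLeft (Abelianization.lift Λ')).toIntLinearMap
  have h2 : LinearIndependent ℤ
      (fun n : ℤ => Additive.ofMul (Abelianization.of (pr ⟨rho n, rho_mem hV n⟩))) := by
    refine LinearIndependent.of_comp φ ?_
    have h3 : ∀ n m : ℤ, φ (Additive.ofMul (Abelianization.of (pr ⟨rho n, rho_mem hV n⟩))) m =
        if m - n = 0 then 2 * π * Complex.I else 0 := fun n m =>
      (congrFun (hΛ _) m).trans ((hlam _ m).unique (val_rho n m))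
    rw [linearIndependent_iff']
    intro s g hg i hi
    have h4 := congrFun hg i
    simp only [Finset.sum_apply, Pi.smul_apply, Function.comp, h3, sub_eq_zero, smul_ite,
      smul_zero, Finset.sum_ite_eq, if_pos hi] at h4
    simpa using h4
  have := h2.finite
  exact _root_.not_finite ℤ

theorem exists_base (i : Fin 6) : ∃ v ∈ circ i, (fm v).1 = (1, 1) := by
  have key : ∀ x : ℝ, |x - ctr i| = rad i → 0 ≤ x → 1 ≤ |x - 7| → 1 ≤ |x - 13| →
      ∃ v ∈ circ i, (fm v).1 = (1, 1) := by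
    intro x h1 h2 h3 h4
    have e : ∀ c : ℝ, ‖(x : ℂ) - c‖ = |x - c| := fun c => by
      rw [← ofReal_sub, norm_real, Real.norm_eq_abs]
    have h5 := sphere_sub i ((e _).trans h1)
    exact ⟨⟨x, h5⟩, (e _).trans h1, Prod.ext (col_eq_one (ne_zero_of_mem h5) h2)
      (f2_eq_one h5 (by simpa [← e] using h3) (by simpa [← e] using h4))⟩
  apply key ((![20, 1, 11 / 2, 17 / 2, 23 / 2, 29 / 2] : Fin 6 → ℝ) i) <;> fin_cases i <;>
    norm_num [ctr, rad, le_abs]

end Pool.Agent.Lib.MP_988b7a_gt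
end
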